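import Pool.Agent.H97.PR.Targets

/-! SPL: a coset covered by two affine sets. -/

set_option autoImplicit false

namespace Pool.Agent.H33.PRY

open Finset Pool.Agent.H97.PR

lemma spl_self {n : ℕ} (x : E n) : x + x = 0 := by
  funext i
  exact CharTwo.add_self_eq_zero (x i)

lemma spl_sub {n : ℕ} (x y : E n) : x - y = x + y := by
  rw [sub_eq_iff_eq_add, add_assoc, spl_self, add_zero]

/-- the directions of an affine set in `V` -/
def spV {n : ℕ} (V : Submodule (ZMod 2) (E n)) (y : E n) (P : Set (E n)) (hP : IsAf P)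
    (hy : y ∈ P) : Submodule (ZMod 2) (E n) where
  carrier := {v | v ∈ V ∧ y + v ∈ P}
  zero_mem' := ⟨V.zero_mem, by rw [add_zero]; exact hy⟩
  add_mem' := fun {v w} hv hw => by
    refine ⟨V.add_mem hv.1 hw.1, ?_⟩
    have h := hP _ hv.2 _ hy _ hw.2
    have e : y + v + y + (y + w) = y + (v + w) := by
      calc y + v + y + (y + w) = (y + y) + (y + (v + w)) := by abel
        _ = _ := by rw [spl_self, zero_add]
    rw [e] at h
    exact h
  smul_mem' := fun c v hv => by
    have hc : c = 0 ∨ c = 1 := by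
      revert c
      decide
    rcases hc with rfl | rfl
    · rw [zero_smul]
      exact ⟨V.zero_mem, by rw [add_zero]; exact hy⟩
    · rw [one_smul]
      exact hv

lemma mem_spV {n : ℕ} (V : Submodule (ZMod 2) (E n)) (y : E n) (P : Set (E n)) (hP : IsAf P)
    (hy : y ∈ P) (v : E n) : v ∈ spV V y P hP hy ↔ v ∈ V ∧ y + v ∈ P := Iff.rfl

theorem pf_SPL : T_SPL := by
  intro n a V P Q hP hQ hcov
  by_cases h1 : pc a V ⊆ P
  · exact Or.inl h1
  by_cases h2 : pc a V ⊆ Q
  · exact Or.inr (Or.inl h2)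
  right; right
  obtain ⟨x, hxa, hxP⟩ := Set.not_subset.1 h1
  obtain ⟨y, hya, hyQ⟩ := Set.not_subset.1 h2
  have hxQ : x ∈ Q := (hcov hxa).resolve_left hxP
  have hyP : y ∈ P := (hcov hya).resolve_right hyQ
  obtain ⟨w, hw⟩ : ∃ w : E n, w = y + x := ⟨_, rfl⟩
  obtain ⟨V', hV'⟩ : ∃ V' : Submodule (ZMod 2) (E n), ∀ v, v ∈ V' ↔ v ∈ V ∧ y + v ∈ P :=
    ⟨spV V y P hP hyP, fun v => mem_spV _ _ _ _ _ _⟩
  obtain ⟨V2, hV2⟩ : ∃ V' : Submodule (ZMod 2) (E n), ∀ v, v ∈ V' ↔ v ∈ V ∧ x + v ∈ Q :=
    ⟨spV V x Q hQ hxQ, fun v => mem_spV _ _ _ _ _ _⟩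
  have hwV : w ∈ V := by
    have h := V.sub_mem hya hxa
    have e : y - a - (x - a) = w := by
      rw [hw, ← spl_sub]
      abel
    rw [e] at h
    exact h
  have hyw : y + w = x := by rw [hw, ← add_assoc, spl_self, zero_add]
  have hxw : x + w = y := by rw [hw, add_comm y x, ← add_assoc, spl_self, zero_add]
  have hwV2 : w ∉ V2 := by
    intro h
    have := ((hV2 w).1 h).2
    rw [hxw] at this
    exact hyQ this
  have hwV' : w ∉ V' := by
    intro h
    have := ((hV' w).1 h).2
    rw [hyw] at this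
    exact hxP this
  have hyv : ∀ v ∈ V, y + v ∈ pc a V := by
    intro v hv
    show y + v - a ∈ V
    have e : y + v - a = (y - a) + v := by abel
    rw [e]
    exact V.add_mem hya hv
  have hstep : ∀ v ∈ V, v ∉ V' → y + v ∈ Q := by
    intro v hv hv'
    refine (hcov (hyv v hv)).resolve_left fun h => hv' ((hV' v).2 ⟨hv, h⟩)
  have hstep2 : ∀ v ∈ V, v ∉ V' → w + v ∈ V2 := by
    intro v hv hv'
    rw [hV2]
    refine ⟨V.add_mem hwV hv, ?_⟩
    rw [← add_assoc, hxw]
    exact hstep v hv hv'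
  have hsum : ∀ v₁ ∈ V, ∀ v₂ ∈ V, v₁ ∉ V' → v₂ ∉ V' → v₁ + v₂ ∈ V' := by
    intro v₁ hv₁ v₂ hv₂ h₁ h₂
    by_contra hc
    have a1 := hstep2 _ (V.add_mem hv₁ hv₂) hc
    have a2 := V2.add_mem (hstep2 _ hv₁ h₁) (hstep2 _ hv₂ h₂)
    have e : w + v₁ + (w + v₂) = v₁ + v₂ := by
      calc w + v₁ + (w + v₂) = (w + w) + (v₁ + v₂) := by abel
        _ = _ := by rw [spl_self, zero_add]
    rw [e] at a2
    have a3 := V2.add_mem a1 a2
    rw [add_assoc, spl_self, add_zero] at a3
    exact hwV2 a3
  have hsup : V' ⊔ Submodule.span (ZMod 2) {w} = V := by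
    apply le_antisymm
    · refine sup_le (fun v hv => ((hV' v).1 hv).1) ?_
      rw [Submodule.span_singleton_le_iff_mem]
      exact hwV
    · intro v hv
      by_cases h : v ∈ V'
      · exact Submodule.mem_sup_left h
      · have h3 := hsum v hv w hwV h hwV'
        have h4 : (v + w) + w ∈ V' ⊔ Submodule.span (ZMod 2) {w} :=
          Submodule.add_mem _ (Submodule.mem_sup_left h3)
            (Submodule.mem_sup_right (Submodule.mem_span_singleton_self w))
        rw [add_assoc, spl_self, add_zero] at h4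
        exact h4
  have hinf : V' ⊓ Submodule.span (ZMod 2) {w} = ⊥ := by
    rw [eq_bot_iff]
    rintro v ⟨hv, hvw⟩
    obtain ⟨c, rfl⟩ := Submodule.mem_span_singleton.1 hvw
    have hc : c = 0 ∨ c = 1 := by
      clear hv hvw
      revert c
      decide
    rcases hc with rfl | rfl
    · rw [zero_smul]
      exact Submodule.zero_mem _
    · rw [one_smul] at hv
      exact absurd hv hwV'
  have hw0 : w ≠ 0 := by
    intro h
    rw [h] at hwV'
    exact hwV' V'.zero_mem
  have hdim : dm V' + 1 = dm V := by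
    have h := Submodule.finrank_sup_add_finrank_inf_eq V' (Submodule.span (ZMod 2) {w})
    rw [hsup, hinf, finrank_bot, finrank_span_singleton hw0] at h
    unfold dm
    omega
  refine ⟨V', y, x, fun v hv => ((hV' v).1 hv).1, hdim, hya, hxa, ?_, ?_, ?_⟩
  · intro z hz
    have h := ((hV' _).1 hz).2
    have e : y + (z - y) = z := by abel
    rw [e] at h
    exact h
  · intro z hz
    have hz' : z - x ∈ V' := hz
    have h3 : w + (z - x) ∉ V' := by
      intro hc
      have := V'.add_mem hc hz'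
      rw [add_assoc, spl_self, add_zero] at this
      exact hwV' this
    have h4 := hstep _ (V.add_mem hwV ((hV' _).1 hz').1) h3
    rw [← add_assoc, hyw] at h4
    have e : x + (z - x) = z := by abel
    rw [e] at h4
    exact h4
  · rw [Set.disjoint_left]
    intro z hz1 hz2
    have h := V'.add_mem hz1 hz2
    have e : z - y + (z - x) = w := by
      rw [spl_sub, spl_sub, hw]
      calc z + y + (z + x) = (z + z) + (y + x) := by abel
        _ = _ := by rw [spl_self, zero_add]
    rw [e] at h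
    exact hwV' h

end Pool.Agent.H33.PRY
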